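import Pool.Agent.K6.H34.TT.StmX
import Pool.Agent.W370.KE.Z
import Pool.Agent.H901R3.MS.P_PL

/-!
# Project TT (helper34), piece TORX

If the roots `r₁, r₂, - r₁ - r₂` are congruent to `0, 1, -1` modulo `15` then all the torsion points
of `y² = (x - r₁) (x - r₂) (x + r₁ + r₂)` are of order at most two.
-/

set_option autoImplicit false

namespace Pool.Agent.K6.H59.TT

open WeierstrassCurve Pool.Agent.H901R3.MS Pool.Agent.W370.KE

theorem redx (p : ℕ) [Fact p.Prime] (v : Place ℚ (ZMod p)) (a b : ℤ)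
    (hD : Disc (a : ZMod p) (b : ZMod p)) :
    ∃ red : Pt (a : ℚ) (b : ℚ) →+ Pt (a : ZMod p) (b : ZMod p), IsRed v a b red :=
  t_R6 t_R1 t_R2 t_R3 t_R4 t_R5 ℚ (ZMod p) v a b hD

instance : Fact (Nat.Prime 5) := ⟨Nat.prime_five⟩

/-- all the points modulo `3` are of order at most two -/
theorem two3 (a b : ZMod 3) (ha : a = -1) (hb : b = 0) (S : Pt a b) : S + S = 0 := by
  subst ha hb
  rcases S with _ | ⟨x, y, h⟩
  · exact add_zero _
  · have E := eqn_of h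
    unfold Eqn at E
    have key : ∀ x y : ZMod 3, y ^ 2 = x ^ 3 + (-1) * x + 0 → y = -y := by decide
    exact add_opp h h rfl (key x y E)

/-- all the points modulo `5` are of order at most four -/
theorem four5 (a b : ZMod 5) (ha : a = -1) (hb : b = 0) (S : Pt a b) :
    (S + S) + (S + S) = 0 := by
  subst ha hb
  rcases S with _ | ⟨x, y, h⟩
  · have e : (Affine.Point.zero + Affine.Point.zero : Pt (-1 : ZMod 5) 0) = 0 := add_zero _
    rw [e]
    exact add_zero _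
  · have E := eqn_of h
    unfold Eqn at E
    by_cases hy : y = -y
    · rw [add_opp h h rfl hy]
      exact add_zero _
    · have h2y : 2 * y ≠ 0 := by
        intro h0
        apply hy
        linear_combination h0
      obtain ⟨h₃, e3⟩ := add_dbl h h rfl hy _ _ _ rfl rfl rfl
      rw [e3]
      have E3 := eqn_of h₃
      unfold Eqn at E3
      refine add_opp h₃ h₃ rfl ?_
      have hl : 2 * y * ((3 * x ^ 2 + (-1)) / (2 * y)) = 3 * x ^ 2 + (-1) := by
        rw [← mul_div_assoc, mul_div_cancel_left₀ _ h2y]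
      generalize (3 * x ^ 2 + (-1)) / (2 * y) = l at *
      have key : ∀ x y l : ZMod 5, y ^ 2 = x ^ 3 + (-1) * x + 0 → ¬ y = -y →
        2 * y * l = 3 * x ^ 2 + (-1) → l ^ 2 - x - x = 0 := by decide
      have hx3 := key x y l E hy hl
      generalize -(l * ((l ^ 2 - x - x) - x) + y) = y₃ at *
      rw [hx3] at E3
      have hy3 : y₃ = 0 := by
        have : y₃ ^ 2 = 0 := by rw [E3]; ring
        exact pow_eq_zero_iff (by norm_num) |>.1 this
      rw [hy3]; ring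

theorem z3 : (15 : ZMod 3) = 0 := by decide
theorem z5 : (15 : ZMod 5) = 0 := by decide
theorem d3 : (2 : ZMod 3) * (4 * (-1) ^ 3 + 27 * 0 ^ 2) ≠ 0 := by decide
theorem d5 : (2 : ZMod 5) * (4 * (-1) ^ 3 + 27 * 0 ^ 2) ≠ 0 := by decide
theorem t35 : (3 : ZMod 5) ≠ 0 := by decide

theorem main (a b : ℤ) (a3 : (a : ZMod 3) = -1) (b3 : (b : ZMod 3) = 0) (a5 : (a : ZMod 5) = -1)
    (b5 : (b : ZMod 5) = 0) (P : Pt (a : ℚ) (b : ℚ)) (hP : IsOfFinAddOrder P) : P + P = 0 := by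
  obtain ⟨v3⟩ := t_PL 3
  obtain ⟨v5⟩ := t_PL 5
  obtain ⟨red3, hr3⟩ := redx 3 v3 a b (by unfold Disc; rw [a3, b3]; exact d3)
  obtain ⟨red5, hr5⟩ := redx 5 v5 a b (by unfold Disc; rw [a5, b5]; exact d5)
  obtain ⟨n, hn, hnP⟩ := isOfFinAddOrder_iff_nsmul_eq_zero.1 hP
  obtain ⟨k, m, hm, hkm⟩ := Nat.exists_eq_pow_mul_and_not_dvd hn.ne' 3 (by norm_num)
  have q3 : red3 (P + P) = 0 := by rw [map_add]; exact two3 _ _ a3 b3 _
  have hm3 : (m : ZMod 3) ≠ 0 := by
    rw [Ne, ZMod.natCast_eq_zero_iff]; exact hm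
  have hQ : (3 ^ k) • (P + P) = 0 := by
    refine no_tors v3 a b red3 hr3 m hm3 _ ?_ ?_
    · rw [← mul_smul, mul_comm, ← hkm, smul_add, hnP, add_zero]
    · rw [map_nsmul, q3, smul_zero]
  have q5 : red5 (P + P) = 0 := by
    have e1 : (3 ^ k) • red5 (P + P) = 0 := by rw [← map_nsmul, hQ, map_zero]
    have e2 : 4 • red5 (P + P) = 0 := by
      have h4 := four5 _ _ a5 b5 (red5 P)
      have : 4 • red5 (P + P) = (red5 P + red5 P) + (red5 P + red5 P) +
        ((red5 P + red5 P) + (red5 P + red5 P)) := by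
        rw [map_add]; abel
      rw [this, h4, add_zero]
    have hc : Nat.Coprime (3 ^ k) 4 := Nat.Coprime.pow_left k (by norm_num)
    have o1 := addOrderOf_dvd_of_nsmul_eq_zero e1
    have o2 := addOrderOf_dvd_of_nsmul_eq_zero e2
    have o3 := Nat.dvd_gcd o1 o2
    rw [hc] at o3
    exact AddMonoid.addOrderOf_eq_one_iff.1 (Nat.dvd_one.1 o3)
  have h35 : ((3 ^ k : ℕ) : ZMod 5) ≠ 0 := by
    push_cast
    exact pow_ne_zero _ t35
  exact no_tors v5 a b red5 hr5 (3 ^ k) h35 _ hQ q5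

theorem torx : Pool.Agent.K6.H34.TT.TORX := by
  intro r₁ r₂ h1 h2 P hP
  obtain ⟨s, hs⟩ : ∃ s, r₁ = 15 * s := ⟨r₁ / 15, by omega⟩
  obtain ⟨t, ht⟩ : ∃ t, r₂ = 15 * t + 1 := ⟨r₂ / 15, by omega⟩
  refine main (-(r₁ ^ 2 + r₁ * r₂ + r₂ ^ 2)) (r₁ * r₂ * (r₁ + r₂)) ?_ ?_ ?_ ?_ P hP
  · rw [hs, ht]; push_cast; rw [z3]; ring
  · rw [hs, ht]; push_cast; rw [z3]; ring
  · rw [hs, ht]; push_cast; rw [z5]; ring
  · rw [hs, ht]; push_cast; rw [z5]; ring

end Pool.Agent.K6.H59.TT
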